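import Mathlib
import Pool.Agent.Helper26.RC.Cert
import Pool.Agent.Helper52.Vojta.BaseChange

/-!
# Heights of periodic points of a regular map, uniformly over extensions of bounded degree
-/

set_option autoImplicit false

namespace Pool.Agent.Helper61.DC

open MvPolynomial NumberField Module
open Pool.Agent.Helper26.RC (infMap Reg exists_cert)

universe u

/-! ### Words -/

section words

variable {N : ℕ}

theorem exists_word (e : ℕ) (m : Fin N →₀ ℕ) (hm : m.degree = e) :
    ∃ w : Fin e → Fin N, ∑ a, Finsupp.single (w a) 1 = m := by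
  induction e generalizing m with
  | zero =>
    refine ⟨Fin.elim0, ?_⟩
    rw [Finset.univ_eq_empty, Finset.sum_empty]
    exact ((Finsupp.degree_eq_zero_iff m).1 hm).symm
  | succ e ih =>
    have h0 : m ≠ 0 := by
      rintro rfl
      rw [map_zero] at hm
      omega
    obtain ⟨i, hi⟩ := Finsupp.ne_iff.1 h0
    rw [Finsupp.zero_apply] at hi
    have hle : Finsupp.single i 1 ≤ m := by
      rw [Finsupp.single_le_iff]
      omega
    have h1 : m - Finsupp.single i 1 + Finsupp.single i 1 = m := tsub_add_cancel_of_le hle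
    have h2 : (m - Finsupp.single i 1).degree = e := by
      have h3 := congrArg Finsupp.degree h1
      rw [map_add, Finsupp.degree_single, hm] at h3
      omega
    obtain ⟨w, hw⟩ := ih _ h2
    refine ⟨Fin.snoc w i, ?_⟩
    rw [Fin.sum_univ_castSucc]
    simp only [Fin.snoc_castSucc, Fin.snoc_last]
    rw [hw, h1]

variable {K : Type*} [Field K]

theorem hom_words {e : ℕ} {Q : MvPolynomial (Fin N) K} (hQ : Q.IsHomogeneous e) :
    ∃ c : (Fin e → Fin N) → K, Q = ∑ w, C (c w) * ∏ a, X (w a) := by
  have h1 : Q ∈ Submodule.span K (Set.range fun w : Fin e → Fin N =>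
      (∏ a, X (w a) : MvPolynomial (Fin N) K)) := by
    rw [← Q.support_sum_monomial_coeff]
    refine Submodule.sum_mem _ fun m hm => ?_
    have hdeg : m.degree = e := by
      have h2 := hQ (mem_support_iff.1 hm)
      rw [Finsupp.degree_eq_weight_one]
      exact h2
    obtain ⟨w, hw⟩ := exists_word e m hdeg
    have h3 : monomial m (coeff m Q) = coeff m Q • (∏ a, X (w a) : MvPolynomial (Fin N) K) := by
      have h4 : monomial m (coeff m Q) = C (coeff m Q) * monomial m 1 := by
        rw [C_mul_monomial, mul_one]
      have h5 : (monomial m 1 : MvPolynomial (Fin N) K) = ∏ a, X (w a) := by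
        rw [← hw, monomial_sum_one]
        rfl
      rw [h4, h5, smul_eq_C_mul]
    rw [h3]
    exact Submodule.smul_mem _ _ (Submodule.subset_span ⟨w, rfl⟩)
  rw [Submodule.mem_span_range_iff_exists_fun] at h1
  obtain ⟨c, hc⟩ := h1
  refine ⟨c, ?_⟩
  rw [← hc]
  exact Finset.sum_congr rfl fun w _ => by rw [smul_eq_C_mul]

end words

/-! ### Heights under base change -/

theorem logHeight_map {k L : Type u} [Field k] [NumberField k] [Field L] [NumberField L]
    [Algebra k L] {ι : Type*} [Fintype ι] (x : ι → k) :
    Height.logHeight (fun i => algebraMap k L (x i)) = finrank k L * Height.logHeight x := by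
  classical
  by_cases hx : x = 0
  · have h1 : (fun i => algebraMap k L (x i)) = 0 := by
      funext i
      rw [hx]
      exact map_zero _
    rw [h1, hx, Height.logHeight_zero, Height.logHeight_zero, mul_zero]
  · set e := (Fintype.equivFin ι).symm
    have hx' : x ∘ e ≠ 0 := by
      intro h
      apply hx
      funext i
      have := congrFun h (e.symm i)
      simpa using this
    have h := Pool.Agent.Helper52.Vojta.logHeight_algebraMap (L' := L) hx'
    rw [Height.logHeight_comp_equiv] at h
    rw [← h, ← Height.logHeight_comp_equiv e (fun i => algebraMap k L (x i))]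
    rfl

theorem logHeight_equiv {L M : Type u} [Field L] [NumberField L] [Field M] [NumberField M]
    (e : L ≃+* M) {m : ℕ} (X : Fin m → L) :
    Height.logHeight (fun i => e (X i)) = Height.logHeight X := by
  let alg : Algebra L M := (e : L →+* M).toAlgebra
  have hfr : Module.finrank L M = 1 := by
    have hb : Function.Bijective (Algebra.linearMap L M) := e.bijective
    exact (LinearEquiv.ofBijective (Algebra.linearMap L M) hb).finrank_eq.symm.trans
      (Module.finrank_self L)
  by_cases hX : X = 0
  · have h1 : (fun i => e (X i)) = 0 := by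
      funext i
      rw [hX]
      exact map_zero e
    rw [h1, hX, Height.logHeight_zero, Height.logHeight_zero]
  · have h := Pool.Agent.Helper52.Vojta.logHeight_algebraMap (L' := M) hX
    rw [hfr, Nat.cast_one, one_mul] at h
    exact h

/-! ### One step of the map -/

section step

variable {K : Type u} [Field K] [NumberField K] {N d : ℕ}

theorem height_step {Ω : Type*} [Field Ω] [Algebra K Ω] [IsAlgClosed Ω]
    {Φ : Fin N → MvPolynomial (Fin N) K} (hΦ : Reg Ω d Φ) :
    ∃ C0 : ℝ, 0 ≤ C0 ∧ ∀ (L : Type u) [Field L] [NumberField L] [Algebra K L] (x : Fin N → L),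
      x ≠ 0 → infMap d Φ x ≠ 0 →
      d * Height.logHeight x ≤ finrank K L * C0 + Height.logHeight (infMap d Φ x) := by
  classical
  obtain ⟨e, Q, hQ, hcert⟩ := exists_cert hΦ
  choose c hc using fun i j => hom_words (hQ i j)
  let A : Fin N × (Fin N × (Fin e → Fin N)) → K := fun p => c p.1 p.2.1 p.2.2
  refine ⟨finrank ℚ K * Real.log (Nat.card (Fin N × (Fin e → Fin N))) + Height.logHeight A, ?_, ?_⟩
  · refine add_nonneg (mul_nonneg (Nat.cast_nonneg _) (Real.log_natCast_nonneg _))
      (Height.logHeight_nonneg _)
  intro L _ _ _ x hx hF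
  let w : (Fin e → Fin N) → L := fun w => ∏ a, x (w a)
  have hw : Height.logHeight w = e * Height.logHeight x := by
    have h := Height.logHeight_fun_prod_eq (α := Fin e) (ι := fun _ => Fin N) (x := fun _ => x)
      (fun _ => hx)
    rw [Finset.sum_const, Finset.card_univ, Fintype.card_fin, nsmul_eq_mul] at h
    exact h
  have hw0 : w ≠ 0 := by
    obtain ⟨i, hi⟩ := Function.ne_iff.1 hx
    refine Function.ne_iff.2 ⟨fun _ => i, ?_⟩
    change ∏ _a : Fin e, x i ≠ 0
    rw [Finset.prod_const]
    exact pow_ne_zero _ hi
  have hmul := Height.logHeight_fun_mul_eq hF hw0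
  have hlin := Height.logHeight_linearMap_apply_le
    (fun p : Fin N × (Fin N × (Fin e → Fin N)) => algebraMap K L (A p))
    (fun a : Fin N × (Fin e → Fin N) => infMap d Φ x a.1 * w a.2)
  have hx2 : (fun i => ∑ a : Fin N × (Fin e → Fin N),
      algebraMap K L (A (i, a)) * (infMap d Φ x a.1 * w a.2)) = x ^ (e + d) := by
    funext i
    have h1 := congrArg (aeval x) (hcert i)
    rw [map_pow, aeval_X, map_sum] at h1
    rw [Pi.pow_apply, h1, Fintype.sum_prod_type]
    refine Finset.sum_congr rfl fun j _ => ?_
    rw [map_mul, hc i j, map_sum, Finset.sum_mul]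
    refine Finset.sum_congr rfl fun v _ => ?_
    rw [map_mul, aeval_C, map_prod]
    simp only [aeval_X]
    change algebraMap K L (c i j v) * (aeval x (homogeneousComponent d (Φ j)) * ∏ a, x (v a)) = _
    ring
  rw [hx2, Height.logHeight_pow, hmul, hw, logHeight_map, NumberField.totalWeight_eq_finrank] at hlin
  have h6 : (finrank ℚ L : ℝ) = finrank K L * finrank ℚ K := by
    rw [mul_comm]
    exact_mod_cast (finrank_mul_finrank ℚ K L).symm
  rw [h6] at hlin
  push_cast at hlin
  nlinarith [hlin]

omit [NumberField K] in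
theorem height_per {Φ : Fin N → MvPolynomial (Fin N) K} (hd : 2 ≤ d) {C0 : ℝ} {L : Type u} [Field L]
    [NumberField L] [Algebra K L]
    (hstep : ∀ x : Fin N → L, x ≠ 0 → infMap d Φ x ≠ 0 →
      d * Height.logHeight x ≤ finrank K L * C0 + Height.logHeight (infMap d Φ x))
    (hne : ∀ x : Fin N → L, x ≠ 0 → infMap d Φ x ≠ 0) {x : Fin N → L} (hx : x ≠ 0) {k : ℕ}
    (hk : 0 < k) {c : L} (hc : c ≠ 0) (h : (infMap d Φ)^[k] x = c • x) :
    Height.logHeight x ≤ finrank K L * C0 := by
  by_contra hcon
  push Not at hcon
  have hd' : (2 : ℝ) ≤ d := by exact_mod_cast hd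
  have hn : ∀ j, (infMap d Φ)^[j] x ≠ 0 := by
    intro j
    induction j with
    | zero => exact hx
    | succ j ih => rw [Function.iterate_succ_apply']; exact hne _ ih
  have hgr : ∀ j, Height.logHeight x ≤ Height.logHeight ((infMap d Φ)^[j] x) := by
    intro j
    induction j with
    | zero => exact le_rfl
    | succ j ih =>
      rw [Function.iterate_succ_apply']
      have h1 := hstep _ (hn j) (hne _ (hn j))
      have h2 := Height.logHeight_nonneg ((infMap d Φ)^[j] x)
      nlinarith
  obtain ⟨k, rfl⟩ : ∃ k', k = k' + 1 := ⟨k - 1, by omega⟩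
  have h1 := hstep _ (hn k) (hne _ (hn k))
  have h2 := Height.logHeight_nonneg ((infMap d Φ)^[k] x)
  have h3 := hgr k
  rw [← Function.iterate_succ_apply' (infMap d Φ), h, Height.logHeight_smul_eq_logHeight _ hc] at h1
  nlinarith

end step

end Pool.Agent.Helper61.DC
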