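import Mathlib

/-!
# Polynomials over an extension, coordinates over the base field
-/

set_option autoImplicit false

namespace Pool.Agent.Helper61.DC

open MvPolynomial

section lc

variable {K Ω : Type*} [Field K] [Field Ω] [Algebra K Ω] {σ : Type*}

/-- Apply a `K`-linear functional to the coefficients of a polynomial. -/
noncomputable def lc (φ : Ω →ₗ[K] K) (f : MvPolynomial σ Ω) : MvPolynomial σ K :=
  ∑ m ∈ f.support, monomial m (φ (coeff m f))

theorem coeff_lc (φ : Ω →ₗ[K] K) (f : MvPolynomial σ Ω) (m : σ →₀ ℕ) :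
    coeff m (lc φ f) = φ (coeff m f) := by
  classical
  unfold lc
  rw [coeff_sum]
  simp only [coeff_monomial]
  rw [Finset.sum_ite_eq']
  split_ifs with h
  · rfl
  · rw [notMem_support_iff.1 h, map_zero]

theorem lc_zero (φ : Ω →ₗ[K] K) : lc φ (0 : MvPolynomial σ Ω) = 0 := by
  ext m
  rw [coeff_lc, coeff_zero, coeff_zero, map_zero]

theorem lc_add (φ : Ω →ₗ[K] K) (f g : MvPolynomial σ Ω) : lc φ (f + g) = lc φ f + lc φ g := by
  ext m
  rw [coeff_lc, coeff_add, coeff_add, map_add, coeff_lc, coeff_lc]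

theorem lc_sum (φ : Ω →ₗ[K] K) {ι : Type*} (s : Finset ι) (f : ι → MvPolynomial σ Ω) :
    lc φ (∑ i ∈ s, f i) = ∑ i ∈ s, lc φ (f i) := by
  classical
  induction s using Finset.induction_on with
  | empty => rw [Finset.sum_empty, Finset.sum_empty, lc_zero]
  | insert a s ha ih => rw [Finset.sum_insert ha, Finset.sum_insert ha, lc_add, ih]

theorem lc_map_mul (φ : Ω →ₗ[K] K) (g : MvPolynomial σ K) (f : MvPolynomial σ Ω) :
    lc φ (MvPolynomial.map (algebraMap K Ω) g * f) = g * lc φ f := by
  classical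
  ext m
  rw [coeff_lc, coeff_mul, coeff_mul, map_sum]
  refine Finset.sum_congr rfl fun p _ => ?_
  rw [coeff_map, coeff_lc, ← Algebra.smul_def, map_smul, smul_eq_mul]

theorem lc_C_mul_map (φ : Ω →ₗ[K] K) (c : Ω) (g : MvPolynomial σ K) :
    lc φ (C c * MvPolynomial.map (algebraMap K Ω) g) = C (φ c) * g := by
  ext m
  rw [coeff_lc, coeff_C_mul, coeff_C_mul, coeff_map, mul_comm, ← Algebra.smul_def, map_smul,
    smul_eq_mul, mul_comm]

theorem eval_lc (φ : Ω →ₗ[K] K) (f : MvPolynomial σ Ω) (α : σ → K) :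
    eval α (lc φ f) = φ (eval (fun i => algebraMap K Ω (α i)) f) := by
  unfold lc
  rw [map_sum, eval_eq (fun i => algebraMap K Ω (α i)) f, map_sum]
  refine Finset.sum_congr rfl fun m _ => ?_
  rw [eval_monomial]
  have h : ∏ i ∈ m.support, algebraMap K Ω (α i) ^ m i =
      algebraMap K Ω (m.prod fun i e => α i ^ e) := by
    rw [Finsupp.prod, map_prod]
    exact Finset.prod_congr rfl fun i _ => (map_pow _ _ _).symm
  rw [h, mul_comm (coeff m f), ← Algebra.smul_def, map_smul, smul_eq_mul, mul_comm]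

theorem hc_lc (φ : Ω →ₗ[K] K) (e : ℕ) (f : MvPolynomial σ Ω) :
    homogeneousComponent e (lc φ f) = lc φ (homogeneousComponent e f) := by
  ext m
  rw [coeff_homogeneousComponent, coeff_lc, coeff_lc, coeff_homogeneousComponent]
  split_ifs
  · rfl
  · rw [map_zero]

theorem totalDegree_lc (φ : Ω →ₗ[K] K) (f : MvPolynomial σ Ω) :
    (lc φ f).totalDegree ≤ f.totalDegree := by
  unfold totalDegree
  refine Finset.sup_mono fun m hm => ?_
  rw [mem_support_iff, coeff_lc] at hm
  rw [mem_support_iff]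
  intro h
  rw [h, map_zero] at hm
  exact hm rfl

/-- the decomposition in terms of a basis -/
theorem exists_decomp {ι : Type*} (b : Module.Basis ι K Ω) (f : MvPolynomial σ Ω) :
    ∃ s : Finset ι, f = ∑ i ∈ s, C (b i) * MvPolynomial.map (algebraMap K Ω) (lc (b.coord i) f) := by
  classical
  refine ⟨f.support.biUnion fun m => (b.repr (coeff m f)).support, ?_⟩
  ext m
  rw [coeff_sum]
  simp only [coeff_C_mul, coeff_map, coeff_lc, Module.Basis.coord_apply]
  by_cases hm : m ∈ f.support
  · have h1 := b.linearCombination_repr (coeff m f)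
    rw [Finsupp.linearCombination_apply, Finsupp.sum] at h1
    conv_lhs => rw [← h1]
    have h2 : (b.repr (coeff m f)).support ⊆
        f.support.biUnion fun m => (b.repr (coeff m f)).support :=
      Finset.subset_biUnion_of_mem (fun m => (b.repr (coeff m f)).support) hm
    rw [← Finset.sum_subset h2]
    · refine Finset.sum_congr rfl fun i _ => ?_
      rw [Algebra.smul_def, mul_comm]
    · intro i _ hi
      rw [Finsupp.notMem_support_iff.1 hi, map_zero, mul_zero]
  · rw [notMem_support_iff.1 hm]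
    simp

theorem eval_smul_hom {R : Type*} [CommRing R] {p : MvPolynomial σ R} {e : ℕ} (hp : p.IsHomogeneous e)
    (a : R) (x : σ → R) : eval (a • x) p = a ^ e * eval x p := by
  rw [eval_eq, eval_eq, Finset.mul_sum]
  refine Finset.sum_congr rfl fun m hm => ?_
  rw [hp.degree_eq_sum_deg_support hm]
  simp only [Pi.smul_apply, smul_eq_mul, mul_pow, Finset.prod_mul_distrib, Finset.prod_pow_eq_pow_sum]
  ring

/-- If all the `lc φ f` vanish at a point over `L`, then so does `f`. -/
theorem eval_eq_zero_of_lc {L : Type*} [Field L] [Algebra K L] (j : L →ₐ[K] Ω) (y : σ → L)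
    (f : MvPolynomial σ Ω) (h : ∀ φ : Ω →ₗ[K] K, aeval y (lc φ f) = 0) :
    eval (fun i => j (y i)) f = 0 := by
  obtain ⟨s, hs⟩ := exists_decomp (Module.Basis.ofVectorSpace K Ω) f
  rw [hs, map_sum]
  refine Finset.sum_eq_zero fun i _ => ?_
  rw [map_mul, eval_map]
  have h1 : eval₂ (algebraMap K Ω) (fun i => j (y i)) (lc ((Module.Basis.ofVectorSpace K Ω).coord i) f)
      = j (aeval y (lc ((Module.Basis.ofVectorSpace K Ω).coord i) f)) := by
    rw [← aeval_def]
    exact (MvPolynomial.comp_aeval_apply y j _).symm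
  rw [h1, h, map_zero, mul_zero]

theorem eq_zero_of_lc {f : MvPolynomial σ Ω} (h : ∀ φ : Ω →ₗ[K] K, lc φ f = 0) : f = 0 := by
  ext m
  rw [coeff_zero, ← Module.forall_dual_apply_eq_zero_iff K]
  intro φ
  have h1 := congrArg (coeff m) (h φ)
  rwa [coeff_lc, coeff_zero] at h1

end lc

end Pool.Agent.Helper61.DC
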