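import Mathlib
import Pool.Agent.Helper61.DC.Coord

/-!
# Closed sets over an extension and points over the base field
-/

set_option autoImplicit false

namespace Pool.Agent.Helper61.DC

open MvPolynomial

section trdeg

theorem pair_of_one_lt {F A : Type*} [Field F] [CommRing A] [Algebra F A]
    (h : ¬ Algebra.trdeg F A ≤ 1) : ∃ a b : A, AlgebraicIndependent F ![a, b] := by
  rw [not_le, Algebra.trdeg] at h
  rcases isEmpty_or_nonempty {s : Set A // AlgebraicIndepOn F id s} with h0 | h0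
  · rw [Cardinal.iSup_of_empty] at h
    exact absurd h (not_lt.2 zero_le_one)
  obtain ⟨s, hs⟩ := exists_lt_of_lt_ciSup h
  rw [Cardinal.one_lt_iff_nontrivial] at hs
  obtain ⟨a, b, hab⟩ := hs
  refine ⟨a.1, b.1, ?_⟩
  have hinj : Function.Injective (![a, b] : Fin 2 → s.1) := by
    intro p q hpq
    fin_cases p <;> fin_cases q
    · rfl
    · exact absurd hpq hab
    · exact absurd hpq.symm hab
    · rfl
  have h1 := AlgebraicIndependent.comp s.2 (![a, b] : Fin 2 → s.1) hinj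
  have h2 : ((fun x : s.1 => id (x : A)) ∘ (![a, b] : Fin 2 → s.1)) = ![a.1, b.1] := by
    funext p
    fin_cases p <;> rfl
  rwa [h2] at h1

theorem not_le_of_pair {F A : Type*} [Field F] [CommRing A] [Nontrivial A] [Algebra F A] {a b : A}
    (h : AlgebraicIndependent F ![a, b]) : ¬ Algebra.trdeg F A ≤ 1 := by
  intro h1
  have h2 := h.lift_cardinalMk_le_trdeg
  rw [Cardinal.mk_fin, Cardinal.lift_natCast] at h2
  have h3 := h2.trans (Cardinal.lift_le.2 h1)
  rw [Cardinal.lift_one] at h3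
  have h4 : (2 : ℕ) ≤ 1 := by exact_mod_cast h3
  omega

end trdeg

section desc

variable {K Ω : Type*} [Field K] [Field Ω] [Algebra K Ω] {N : ℕ}

/-- the extension of an ideal -/
def extI (P : Ideal (MvPolynomial (Fin N) K)) : Ideal (MvPolynomial (Fin N) Ω) where
  carrier := {f | ∀ φ : Ω →ₗ[K] K, lc φ f ∈ P}
  add_mem' := by
    intro f g hf hg φ
    rw [lc_add]
    exact P.add_mem (hf φ) (hg φ)
  zero_mem' := by
    intro φ
    rw [lc_zero]
    exact P.zero_mem
  smul_mem' := by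
    intro c f hf φ
    rw [smul_eq_mul]
    obtain ⟨s, hs⟩ := exists_decomp (Module.Basis.ofVectorSpace K Ω) c
    rw [hs, Finset.sum_mul, lc_sum]
    refine P.sum_mem fun i _ => ?_
    rw [mul_assoc, mul_left_comm, lc_map_mul]
    refine P.mul_mem_left _ ?_
    have h1 : lc φ (C ((Module.Basis.ofVectorSpace K Ω) i) * f) =
        lc (φ ∘ₗ LinearMap.mulLeft K ((Module.Basis.ofVectorSpace K Ω) i)) f := by
      ext m
      rw [coeff_lc, coeff_lc, coeff_C_mul]
      rfl
    rw [h1]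
    exact hf _

theorem mem_extI {P : Ideal (MvPolynomial (Fin N) K)} {f : MvPolynomial (Fin N) Ω} :
    f ∈ extI P ↔ ∀ φ : Ω →ₗ[K] K, lc φ f ∈ P := Iff.rfl

theorem lc_aeval (φ : Ω →ₗ[K] K) (g : Fin 2 → MvPolynomial (Fin N) K) (F : MvPolynomial (Fin 2) Ω) :
    lc φ (aeval (fun i => MvPolynomial.map (algebraMap K Ω) (g i)) F) = aeval g (lc φ F) := by
  classical
  have h1 : aeval (fun i => MvPolynomial.map (algebraMap K Ω) (g i)) F =
      ∑ m ∈ F.support, C (coeff m F) * MvPolynomial.map (algebraMap K Ω) (m.prod fun i e => g i ^ e) := by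
    conv_lhs => rw [← F.support_sum_monomial_coeff]
    rw [map_sum]
    refine Finset.sum_congr rfl fun m _ => ?_
    rw [aeval_monomial]
    have h2 : MvPolynomial.map (algebraMap K Ω) (m.prod fun i e => g i ^ e) =
        m.prod fun i e => MvPolynomial.map (algebraMap K Ω) (g i) ^ e := by
      rw [Finsupp.prod, Finsupp.prod, map_prod]
      exact Finset.prod_congr rfl fun i _ => map_pow _ _ _
    rw [h2]
    rfl
  rw [h1, lc_sum]
  simp only [lc_C_mul_map]
  unfold lc
  rw [map_sum]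
  refine Finset.sum_congr rfl fun m _ => ?_
  rw [aeval_monomial]
  rfl

/-- The dimension of a closed set over `K` whose equations are implied by those of a closed set over
`Ω`. -/
theorem dim_desc {I : Ideal (MvPolynomial (Fin N) Ω)}
    (hI : ∀ P : Ideal (MvPolynomial (Fin N) Ω), P.IsPrime → I ≤ P →
      Algebra.trdeg Ω (MvPolynomial (Fin N) Ω ⧸ P) ≤ 1)
    {J : Ideal (MvPolynomial (Fin N) K)} (hJ : ∀ f ∈ I, ∀ φ : Ω →ₗ[K] K, lc φ f ∈ J)
    (P : Ideal (MvPolynomial (Fin N) K)) (hJP : J ≤ P) :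
    Algebra.trdeg K (MvPolynomial (Fin N) K ⧸ P) ≤ 1 := by
  by_contra hcon
  obtain ⟨a, b, hab⟩ := pair_of_one_lt hcon
  obtain ⟨f, rfl⟩ := Ideal.Quotient.mk_surjective a
  obtain ⟨g, rfl⟩ := Ideal.Quotient.mk_surjective b
  let G : Fin 2 → MvPolynomial (Fin N) K := ![f, g]
  let GΩ : Fin 2 → MvPolynomial (Fin N) Ω := fun i => MvPolynomial.map (algebraMap K Ω) (G i)
  have hG : (![Ideal.Quotient.mk P f, Ideal.Quotient.mk P g] : Fin 2 → MvPolynomial (Fin N) K ⧸ P) =
      fun i => Ideal.Quotient.mkₐ K P (G i) := by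
    funext i
    fin_cases i <;> rfl
  have hind : ∀ F : MvPolynomial (Fin 2) K, aeval G F ∈ P → F = 0 := by
    intro F hF
    rw [hG] at hab
    refine (injective_iff_map_eq_zero _).1 hab F ?_
    have h1 : aeval (fun i => Ideal.Quotient.mkₐ K P (G i)) F = Ideal.Quotient.mkₐ K P (aeval G F) :=
      (MvPolynomial.comp_aeval_apply G (Ideal.Quotient.mkₐ K P) F).symm
    rw [h1]
    exact Ideal.Quotient.eq_zero_iff_mem.2 hF
  let S : Submonoid (MvPolynomial (Fin N) Ω) :=
    (nonZeroDivisors (MvPolynomial (Fin 2) Ω)).map (aeval GΩ : MvPolynomial (Fin 2) Ω →ₐ[Ω] _)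
  have hdisj : Disjoint ((extI P : Ideal (MvPolynomial (Fin N) Ω)) : Set (MvPolynomial (Fin N) Ω)) S := by
    rw [Set.disjoint_left]
    rintro _ hx ⟨F, hF, rfl⟩
    refine nonZeroDivisors.ne_zero hF (eq_zero_of_lc (K := K) fun φ => hind _ ?_)
    rw [← lc_aeval]
    exact hx φ
  obtain ⟨Q, hQ, hPQ, hQS⟩ := Ideal.exists_le_prime_disjoint (extI P : Ideal (MvPolynomial (Fin N) Ω)) S hdisj
  have hIQ : I ≤ Q := fun h hh => hPQ fun φ => hJP (hJ h hh φ)
  have h2 : AlgebraicIndependent Ω ![Ideal.Quotient.mk Q (GΩ 0), Ideal.Quotient.mk Q (GΩ 1)] := by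
    have h3 : (![Ideal.Quotient.mk Q (GΩ 0), Ideal.Quotient.mk Q (GΩ 1)] :
        Fin 2 → MvPolynomial (Fin N) Ω ⧸ Q) = fun i => Ideal.Quotient.mkₐ Ω Q (GΩ i) := by
      funext i
      fin_cases i <;> rfl
    rw [h3]
    refine (injective_iff_map_eq_zero _).2 fun F hF => ?_
    have h4 : aeval (fun i => Ideal.Quotient.mkₐ Ω Q (GΩ i)) F = Ideal.Quotient.mkₐ Ω Q (aeval GΩ F) :=
      (MvPolynomial.comp_aeval_apply GΩ (Ideal.Quotient.mkₐ Ω Q) F).symm
    rw [h4] at hF
    by_contra hF0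
    exact Set.disjoint_left.1 hQS (Ideal.Quotient.eq_zero_iff_mem.1 hF)
      ⟨F, mem_nonZeroDivisors_of_ne_zero hF0, rfl⟩
  exact not_le_of_pair h2 (hI Q hQ hIQ)

/-- A point at infinity of the closed set over `K` is a point at infinity of the closed set over `Ω`. -/
theorem inf_desc {I : Ideal (MvPolynomial (Fin N) Ω)} {J : Ideal (MvPolynomial (Fin N) K)}
    (hJ : ∀ f ∈ I, ∀ φ : Ω →ₗ[K] K, lc φ f ∈ J) {L : Type*} [Field L] [Algebra K L] (j : L →ₐ[K] Ω)
    (y : Fin N → L) (hy : ∀ f ∈ J, aeval y (homogeneousComponent f.totalDegree f) = 0)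
    (f : MvPolynomial (Fin N) Ω) (hf : f ∈ I) :
    eval (fun i => j (y i)) (homogeneousComponent f.totalDegree f) = 0 := by
  refine eval_eq_zero_of_lc j y _ fun φ => ?_
  rw [← hc_lc]
  rcases (totalDegree_lc φ f).lt_or_eq with h | h
  · rw [homogeneousComponent_eq_zero _ _ h, map_zero]
  · rw [← h]
    exact hy _ (hJ f hf φ)

/-- The polynomials over `K` which vanish at the points with index in `R`. -/
def vanR (x : ℕ → Fin N → K) (R : Set ℕ) : Ideal (MvPolynomial (Fin N) K) where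
  carrier := {f | ∀ n ∈ R, eval (x n) f = 0}
  add_mem' := by
    intro f g hf hg n hn
    rw [map_add, hf n hn, hg n hn, add_zero]
  zero_mem' := fun n _ => map_zero _
  smul_mem' := by
    intro c f hf n hn
    rw [smul_eq_mul, map_mul, hf n hn, mul_zero]

theorem lc_mem_vanR (I : Ideal (MvPolynomial (Fin N) Ω)) (x : ℕ → Fin N → K) :
    ∀ f ∈ I, ∀ φ : Ω →ₗ[K] K,
      lc φ f ∈ vanR x {n | ∀ f ∈ I, eval (fun i => algebraMap K Ω (x n i)) f = 0} := by
  intro f hf φ n hn
  rw [eval_lc, hn f hf, map_zero]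

theorem ret_eq (I : Ideal (MvPolynomial (Fin N) Ω)) (x : ℕ → Fin N → K) :
    {n | ∀ f ∈ vanR x {n | ∀ f ∈ I, eval (fun i => algebraMap K Ω (x n i)) f = 0}, eval (x n) f = 0} =
      {n | ∀ f ∈ I, eval (fun i => algebraMap K Ω (x n i)) f = 0} := by
  ext n
  constructor
  · intro h f hf
    rw [← Module.forall_dual_apply_eq_zero_iff K]
    intro φ
    rw [← eval_lc]
    exact h _ (lc_mem_vanR I x f hf φ)
  · intro h f hf
    exact hf n h

end desc

end Pool.Agent.Helper61.DC
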