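import Mathlib
import Pool.Agent.Helper61.DC.Ht

/-!
# Northcott for points of degree at most two over a number field
-/

set_option autoImplicit false

namespace Pool.Agent.Helper61.DC

open MvPolynomial NumberField Module
open Pool.Agent.Helper26.RC (infMap Reg exists_cert)

universe u

section sigma

theorem isGalois_of_le_two {k L : Type*} [Field k] [CharZero k] [Field L] [Algebra k L]
    [FiniteDimensional k L] (h : finrank k L ≤ 2) : IsGalois k L := by
  have hpos : 0 < finrank k L := finrank_pos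
  rcases (by omega : finrank k L = 1 ∨ finrank k L = 2) with h1 | h1
  · have h2 := IntermediateField.bot_eq_top_iff_finrank_eq_one.2 h1
    have h3 : IsGalois k (⊥ : IntermediateField k L) := isGalois_bot
    rw [h2] at h3
    exact isGalois_iff_isGalois_top.1 h3
  · have : Algebra.IsQuadraticExtension k L := ⟨h1⟩
    infer_instance

theorem exists_sigma {k L : Type*} [Field k] [CharZero k] [Field L] [Algebra k L]
    [FiniteDimensional k L] (h : finrank k L ≤ 2) :
    ∃ σ : L ≃ₐ[k] L, (∀ z, σ (σ z) = z) ∧ (∀ z, σ z = z → ∃ c : k, algebraMap k L c = z) := by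
  classical
  have hgal := isGalois_of_le_two h
  have hpos : 0 < finrank k L := finrank_pos
  have hc : Fintype.card (L ≃ₐ[k] L) = finrank k L := by
    rw [← Nat.card_eq_fintype_card, IsGalois.card_aut_eq_finrank]
  have hfix : ∀ z : L, (∀ τ : L ≃ₐ[k] L, τ z = z) → ∃ c : k, algebraMap k L c = z := fun z hz =>
    (IsGalois.mem_range_algebraMap_iff_fixed z).2 hz
  rcases (by omega : finrank k L = 1 ∨ finrank k L = 2) with h1 | h1
  · rw [h1] at hc
    obtain ⟨σ0, hσ0⟩ := Fintype.card_eq_one_iff.1 hc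
    have hall : ∀ τ : L ≃ₐ[k] L, τ = 1 := fun τ => (hσ0 τ).trans (hσ0 1).symm
    exact ⟨1, fun z => rfl, fun z _ => hfix z fun τ => by rw [hall τ]; rfl⟩
  · rw [h1] at hc
    have hnt : Nontrivial (L ≃ₐ[k] L) := Fintype.one_lt_card_iff_nontrivial.1 (by omega)
    obtain ⟨σ, hσ⟩ := exists_ne (1 : L ≃ₐ[k] L)
    have hu : ({1, σ} : Finset (L ≃ₐ[k] L)) = Finset.univ := by
      apply Finset.eq_univ_of_card
      rw [Finset.card_pair (Ne.symm hσ), hc]
    have hall : ∀ τ : L ≃ₐ[k] L, τ = 1 ∨ τ = σ := by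
      intro τ
      have : τ ∈ ({1, σ} : Finset (L ≃ₐ[k] L)) := by rw [hu]; exact Finset.mem_univ _
      simpa using this
    have hσ2 : σ * σ = 1 := by
      rcases hall (σ * σ) with h2 | h2
      · exact h2
      · exact absurd (mul_eq_left.1 h2) hσ
    refine ⟨σ, fun z => ?_, fun z hz => hfix z fun τ => ?_⟩
    · exact congrArg (fun τ : L ≃ₐ[k] L => τ z) hσ2
    · rcases hall τ with rfl | rfl
      · rfl
      · exact hz

end sigma

section northcott

variable {K : Type u} [Field K] [NumberField K]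

/-- the matrix of the symmetric functions -/
def symA (K : Type u) [Field K] : Fin 3 × (Fin 2 × Fin 2) → K
  | (0, (0, 0)) => 1
  | (1, (0, 1)) => 1
  | (1, (1, 0)) => 1
  | (2, (1, 1)) => 1
  | _ => 0

omit [NumberField K] in
theorem symA_apply {L : Type u} [Field L] [Algebra K L] (u v : L) :
    (fun j => ∑ i : Fin 2 × Fin 2, algebraMap K L (symA K (j, i)) * (![u, 1] i.1 * ![v, 1] i.2)) =
      ![u * v, u + v, 1] := by
  funext j
  rw [Fintype.sum_prod_type]
  fin_cases j <;> simp [symA, Fin.sum_univ_two]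

theorem height_quad : ∃ C1 : ℝ, ∀ (L : Type u) [Field L] [NumberField L] [Algebra K L] (u : L),
    finrank K L ≤ 2 → ∃ n s : K, u ^ 2 - algebraMap K L s * u + algebraMap K L n = 0 ∧
      Height.logHeight₁ n ≤ C1 + 2 * Height.logHeight₁ u ∧
      Height.logHeight₁ s ≤ C1 + 2 * Height.logHeight₁ u := by
  refine ⟨finrank ℚ K * Real.log 4 + Height.logHeight (symA K), fun L _ _ _ u h2 => ?_⟩
  have hfd : FiniteDimensional K L := Module.Finite.of_restrictScalars_finite ℚ K L
  obtain ⟨σ, hσ, hfix⟩ := exists_sigma h2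
  obtain ⟨n, hn⟩ := hfix (u * σ u) (by rw [map_mul, hσ, mul_comm])
  obtain ⟨s, hs⟩ := hfix (u + σ u) (by rw [map_add, hσ, add_comm])
  refine ⟨n, s, by rw [hn, hs]; ring, ?_⟩
  have hlin := Height.logHeight_linearMap_apply_le
    (fun p : Fin 3 × (Fin 2 × Fin 2) => algebraMap K L (symA K p))
    (fun a : Fin 2 × Fin 2 => ![u, 1] a.1 * ![σ u, 1] a.2)
  have hne : ∀ v : L, (![v, 1] : Fin 2 → L) ≠ 0 := fun v h => by
    have := congrFun h 1
    simp at this
  have hvec : ![u * σ u, u + σ u, 1] = fun i => algebraMap K L (![n, s, 1] i) := by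
    funext j
    fin_cases j
    · exact hn.symm
    · exact hs.symm
    · exact (map_one _).symm
  rw [symA_apply, Height.logHeight_fun_mul_eq (hne u) (hne _), logHeight_map, hvec, logHeight_map,
    NumberField.totalWeight_eq_finrank] at hlin
  have hsu : Height.logHeight ![σ u, 1] = Height.logHeight ![u, 1] := by
    rw [← logHeight_equiv (σ : L ≃+* L) ![u, 1]]
    congr 1
    funext j
    fin_cases j
    · rfl
    · exact (map_one σ).symm
  rw [hsu, ← Height.logHeight₁_eq_logHeight] at hlin
  have h6 : (finrank ℚ L : ℝ) = finrank K L * finrank ℚ K := by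
    rw [mul_comm]
    exact_mod_cast (finrank_mul_finrank ℚ K L).symm
  have h7 : Nat.card (Fin 2 × Fin 2) = 4 := by simp
  rw [h6, h7] at hlin
  push_cast at hlin
  have hpos : (1 : ℝ) ≤ finrank K L := by exact_mod_cast (finrank_pos : 0 < finrank K L)
  have hu0 := Height.zero_le_logHeight₁ u
  have hB : Height.logHeight ![n, s, 1] ≤ finrank ℚ K * Real.log 4 + Height.logHeight (symA K) +
      2 * Height.logHeight₁ u := by
    have h8 : (finrank K L : ℝ) * Height.logHeight ![n, s, 1] ≤ finrank K L *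
        (finrank ℚ K * Real.log 4 + Height.logHeight (symA K) + 2 * Height.logHeight₁ u) := by
      nlinarith
    exact le_of_mul_le_mul_left h8 (by linarith)
  constructor
  · refine le_trans ?_ hB
    rw [Height.logHeight₁_eq_logHeight]
    have h9 : ![n, 1] = ![n, s, 1] ∘ (![0, 2] : Fin 2 → Fin 3) := by
      funext j
      fin_cases j <;> rfl
    rw [h9]
    exact Height.logHeight_comp_le _ _
  · refine le_trans ?_ hB
    rw [Height.logHeight₁_eq_logHeight]
    have h9 : ![s, 1] = ![n, s, 1] ∘ (![1, 2] : Fin 2 → Fin 3) := by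
      funext j
      fin_cases j <;> rfl
    exact (congrArg Height.logHeight h9).le.trans (Height.logHeight_comp_le _ _)

variable {Ω : Type*} [Field Ω] [Algebra K Ω]

theorem finite_small (B : ℝ) :
    {t : Ω | ∃ (L : Type u) (_ : Field L) (_ : NumberField L) (_ : Algebra K L) (j : L →ₐ[K] Ω) (u : L),
      finrank K L ≤ 2 ∧ Height.logHeight₁ u ≤ B ∧ j u = t}.Finite := by
  classical
  obtain ⟨C1, hC1⟩ := height_quad (K := K)
  have hfin := NumberField.finite_setOfPred_logHeight₁_le K (C1 + 2 * B)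
  have h1 : (⋃ n ∈ {x : K | Height.logHeight₁ x ≤ C1 + 2 * B},
      ⋃ s ∈ {x : K | Height.logHeight₁ x ≤ C1 + 2 * B},
      {t : Ω | t ^ 2 - algebraMap K Ω s * t + algebraMap K Ω n = 0}).Finite := by
    refine hfin.biUnion fun n _ => hfin.biUnion fun s _ => ?_
    have h2 : (Polynomial.X ^ 2 - Polynomial.C (algebraMap K Ω s) * Polynomial.X +
        Polynomial.C (algebraMap K Ω n) : Polynomial Ω) ≠ 0 := by
      intro h
      have h3 := congrArg (fun p => Polynomial.coeff p 2) h
      simp at h3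
    refine (Finset.finite_toSet (Polynomial.X ^ 2 - Polynomial.C (algebraMap K Ω s) * Polynomial.X +
        Polynomial.C (algebraMap K Ω n) : Polynomial Ω).roots.toFinset).subset fun t ht => ?_
    rw [Finset.mem_coe, Multiset.mem_toFinset, Polynomial.mem_roots h2, Polynomial.IsRoot.def]
    simpa using ht
  refine h1.subset ?_
  rintro t ⟨L, _, _, _, j, u, hL, hu, rfl⟩
  obtain ⟨n, s, he, hn, hs⟩ := hC1 L u hL
  simp only [Set.mem_iUnion, Set.mem_ofPred_eq, exists_prop]
  refine ⟨n, by linarith, s, by linarith, ?_⟩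
  have h3 := congrArg j he
  rw [map_add, map_sub, map_pow, map_mul, AlgHom.commutes, AlgHom.commutes, map_zero] at h3
  exact h3

open scoped LinearAlgebra.Projectivization in
theorem finite_points {N : ℕ} (B : ℝ) :
    {p : ℙ Ω (Fin N → Ω) | ∃ (L : Type u) (_ : Field L) (_ : NumberField L) (_ : Algebra K L)
      (j : L →ₐ[K] Ω) (y : Fin N → L) (hy : (fun i => j (y i)) ≠ 0),
      finrank K L ≤ 2 ∧ Height.logHeight y ≤ B ∧ p = Projectivization.mk Ω _ hy}.Finite := by
  classical
  have hT := finite_small (K := K) (Ω := Ω) B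
  set T := {t : Ω | ∃ (L : Type u) (_ : Field L) (_ : NumberField L) (_ : Algebra K L)
    (j : L →ₐ[K] Ω) (u : L), finrank K L ≤ 2 ∧ Height.logHeight₁ u ≤ B ∧ j u = t} with hTdef
  have hpi : (Set.pi (Set.univ : Set (Fin N)) fun _ => T).Finite := Set.Finite.pi fun _ => hT
  have h1 : (Subtype.val ⁻¹' (Set.pi (Set.univ : Set (Fin N)) fun _ => T) :
      Set {t : Fin N → Ω // t ≠ 0}).Finite := hpi.preimage Subtype.val_injective.injOn
  refine (h1.image fun t => Projectivization.mk Ω t.1 t.2).subset ?_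
  rintro p ⟨L, _, _, _, j, y, hy, hL, hB, rfl⟩
  obtain ⟨i, hi⟩ := Function.ne_iff.1 hy
  have hyi : y i ≠ 0 := by
    intro h
    apply hi
    rw [h, map_zero]
    rfl
  have hjyi : j (y i) ≠ 0 := hi
  have hne : (fun k => j (y k / y i)) ≠ 0 := by
    refine Function.ne_iff.2 ⟨i, ?_⟩
    rw [div_self hyi, map_one]
    exact one_ne_zero
  refine ⟨⟨fun k => j (y k / y i), hne⟩, ?_, ?_⟩
  · intro k _
    refine ⟨L, inferInstance, inferInstance, inferInstance, j, y k / y i, hL, ?_, rfl⟩
    rw [Height.logHeight₁_div_eq_logHeight]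
    have h9 : ![y k, y i] = y ∘ (![k, i] : Fin 2 → Fin N) := by
      funext a
      fin_cases a <;> rfl
    rw [h9]
    exact (Height.logHeight_comp_le _ _).trans hB
  · rw [Projectivization.mk_eq_mk_iff']
    refine ⟨(j (y i))⁻¹, ?_⟩
    funext k
    change (j (y i))⁻¹ * j (y k) = j (y k / y i)
    rw [map_div₀, div_eq_inv_mul]

end northcott

end Pool.Agent.Helper61.DC
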