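import Mathlib
import Pool.Agent.Helper61.DC.Desc
import Pool.Agent.Helper61.DC.Fin
import Pool.Agent.Helper52.RP.Main

/-!
# Curves and maps regular at infinity: the exceptional set at infinity is finite
-/

set_option autoImplicit false

namespace Pool.Agent.Helper61.DC

open MvPolynomial NumberField Module
open Pool.Agent.Helper26.RC (infMap Reg orb)
open scoped LinearAlgebra.Projectivization

section iter

variable {K : Type*} [Field K] {L : Type*} [Field L] [Algebra K L] {N : ℕ}

/-- the top form over an extension -/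
noncomputable def tf (L : Type*) [Field L] [Algebra K L] (d : ℕ) (Φ : Fin N → MvPolynomial (Fin N) K)
    (i : Fin N) : MvPolynomial (Fin N) L :=
  homogeneousComponent d (MvPolynomial.map (algebraMap K L) (Φ i))

theorem hc_map (e : ℕ) (g : MvPolynomial (Fin N) K) :
    homogeneousComponent e (MvPolynomial.map (algebraMap K L) g) =
      MvPolynomial.map (algebraMap K L) (homogeneousComponent e g) := by
  ext n
  rw [coeff_homogeneousComponent, coeff_map, coeff_map, coeff_homogeneousComponent]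
  split_ifs
  · rfl
  · rw [map_zero]

theorem eval_iter (d : ℕ) (Φ : Fin N → MvPolynomial (Fin N) K) (k : ℕ) (z : Fin N → L) (i : Fin N) :
    eval z ((bind₁ (tf L d Φ))^[k] (X i)) = (infMap d Φ)^[k] z i := by
  have h0 : (fun i => eval z (tf L d Φ i)) = infMap d Φ z := by
    funext i
    unfold tf infMap
    rw [hc_map, eval_map, aeval_def]
  have h : ∀ (k : ℕ) (z : Fin N → L) (f : MvPolynomial (Fin N) L),
      eval z ((bind₁ (tf L d Φ))^[k] f) = eval ((infMap d Φ)^[k] z) f := by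
    intro k
    induction k with
    | zero => intro z f; rfl
    | succ k ih =>
      intro z f
      rw [Function.iterate_succ_apply, ih, Function.iterate_succ_apply', eval, eval₂Hom_bind₁]
      congr 2
      funext i
      unfold tf infMap
      rw [hc_map, eval₂Hom_map_hom]
      rfl
  rw [h, eval_X]

end iter

variable {K : Type} [Field K] [NumberField K] [Algebra K ℂ] {N d : ℕ}

/-- The periodic points at infinity of degree at most two over `K` form a finite set. -/
theorem finite_per (hd : 2 ≤ d) {Φ : Fin N → MvPolynomial (Fin N) K} (hΦ : Reg ℂ d Φ) :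
    {p : ℙ ℂ (Fin N → ℂ) | ∃ (L : Type) (_ : Field L) (_ : Algebra K L) (j : L →ₐ[K] ℂ)
      (z : Fin N → L) (h : (fun i => j (z i)) ≠ 0), FiniteDimensional K L ∧ finrank K L ≤ 2 ∧
      p = Projectivization.mk ℂ _ h ∧
      ∃ k, 0 < k ∧ ∃ c : L, c ≠ 0 ∧ ∀ i, eval z ((bind₁ (tf L d Φ))^[k] (X i)) = c * z i}.Finite := by
  obtain ⟨C0, hC0, hstep⟩ := height_step hΦ
  refine (finite_points (K := K) (Ω := ℂ) (N := N) (2 * C0)).subset ?_
  rintro p ⟨L, _, _, j, z, h, hfin, hL, rfl, k, hk, c, hc, hz⟩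
  have hNF : NumberField L := NumberField.of_module_finite K L
  refine ⟨L, inferInstance, hNF, inferInstance, j, z, h, hL, ?_, rfl⟩
  have hz0 : z ≠ 0 := by
    rintro rfl
    apply h
    funext i
    exact map_zero j
  have hne : ∀ x : Fin N → L, x ≠ 0 → infMap d Φ x ≠ 0 := by
    intro x hx h0
    have h1 : infMap d Φ (fun i => j (x i)) = 0 := by
      funext i
      have h2 := congrArg j (congrFun h0 i)
      unfold infMap at h2
      rw [Pi.zero_apply, map_zero, MvPolynomial.comp_aeval_apply] at h2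
      exact h2
    have h3 := hΦ.2 _ h1
    apply hx
    funext i
    exact (map_eq_zero j).1 (congrFun h3 i)
  have hit : (infMap d Φ)^[k] z = c • z := by
    funext i
    rw [← eval_iter, hz i]
    rfl
  have h1 := height_per (K := K) (C0 := C0) hd (hstep L) hne hz0 hk hc hit
  have h2 : (finrank K L : ℝ) ≤ 2 := by exact_mod_cast hL
  nlinarith

omit [NumberField K] in
theorem reg_closure {Φ : Fin N → MvPolynomial (Fin N) K} (hΦ : Reg ℂ d Φ) :
    Reg (algebraicClosure K ℂ) d Φ := by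
  refine ⟨hΦ.1, fun z hz => ?_⟩
  have h1 : infMap d Φ (fun i => ((z i : algebraicClosure K ℂ) : ℂ)) = 0 := by
    funext i
    have h2 := congrArg (algebraMap (algebraicClosure K ℂ) ℂ) (congrFun hz i)
    unfold infMap at h2
    rw [Pi.zero_apply, map_zero, ← MvPolynomial.aeval_algebraMap_apply] at h2
    exact h2
  have h3 := hΦ.2 _ h1
  funext i
  exact Subtype.ext (congrFun h3 i)

theorem curves (hd : 2 ≤ d) {Φ : Fin N → MvPolynomial (Fin N) K} (hΦ : Reg ℂ d Φ) (α : Fin N → K)
    (I : Ideal (MvPolynomial (Fin N) ℂ))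
    (hI : ∀ P : Ideal (MvPolynomial (Fin N) ℂ), P.IsPrime → I ≤ P →
      Algebra.trdeg ℂ (MvPolynomial (Fin N) ℂ ⧸ P) ≤ 1)
    (hmult : ∀ (L : Type) [Field L] [Algebra K L] (j : L →ₐ[K] ℂ) (z : Fin N → L),
      FiniteDimensional K L → finrank K L ≤ 2 → z ≠ 0 →
      (∀ f ∈ I, eval (fun i => j (z i)) (homogeneousComponent f.totalDegree f) = 0) →
      (∃ k, 0 < k ∧ ∃ c : L, c ≠ 0 ∧ ∀ i, eval z ((bind₁ (tf L d Φ))^[k] (X i)) = c * z i) →
      ∃ k, 0 < k ∧ (∃ c : L, c ≠ 0 ∧ ∀ i, eval z ((bind₁ (tf L d Φ))^[k] (X i)) = c * z i) ∧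
        Pool.Agent.Helper52.RP.mult z (Ideal.span (Set.range fun i =>
          (bind₁ (tf L d Φ))^[k] (X i) - C (eval z ((bind₁ (tf L d Φ))^[k] (X i))))) < (d ^ k : ℕ)) :
    ∃ A : Finset (ℕ × ℕ), {n | ∀ f ∈ I, eval (fun i => algebraMap K ℂ (orb Φ α n i)) f = 0} =
      ⋃ p ∈ A, {n | ∃ k, n = p.1 + p.2 * k} := by
  set R : Set ℕ := {n | ∀ f ∈ I, eval (fun i => algebraMap K ℂ (orb Φ α n i)) f = 0} with hR
  have hJ : ∀ f ∈ I, ∀ φ : ℂ →ₗ[K] K, lc φ f ∈ vanR (orb Φ α) R := lc_mem_vanR I (orb Φ α)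
  have hret : {n | ∀ f ∈ vanR (orb Φ α) R, eval (orb Φ α n) f = 0} = R := ret_eq I (orb Φ α)
  rw [← hret]
  refine Pool.Agent.Helper52.RP.main (Ω := algebraicClosure K ℂ) hd (reg_closure hΦ) α
    (fun P _ hJP => dim_desc hI hJ P hJP) ?_
  intro F hF1 hF2 z hz hinf hper
  let j : F →ₐ[K] ℂ := (algebraicClosure K ℂ).val.comp F.val
  exact hmult F j z hF1 hF2 hz (fun f hf => inf_desc hJ j z hinf f hf) hper

end Pool.Agent.Helper61.DC
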